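import Pool.Agent.H27.DyadicIns

/-!
The critical probability of random dyadic tilings: `p_c(d) ≥ 4 / 2^(2^d)` in every dimension `d ≥ 1`.
-/

set_option autoImplicit false

open MeasureTheory Set Filter
open scoped Topology

namespace Pool.Agent.Results.MP_27a786_pr.CriticalProbabilityBound

/-- `I` is a dyadic interval of length `2^(-i)`: `I = [a 2^(-i), (a+1) 2^(-i)]` with an integer
`0 ≤ a < 2^i`. -/
def IsDyadicInterval (i : ℕ) (I : Set ℝ) : Prop :=
  ∃ a : ℕ, a < 2 ^ i ∧ I = Icc ((a : ℝ) / 2 ^ i) (((a : ℝ) + 1) / 2 ^ i)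

/-- `R` is a `d`-dimensional dyadic tile of order `n`: a product of dyadic intervals of lengths
`2^(-i_k)` with `i_1 + ... + i_d = n`. -/
def IsTile (d n : ℕ) (R : Set (Fin d → ℝ)) : Prop :=
  ∃ (i : Fin d → ℕ) (I : Fin d → Set ℝ),
    (∀ k, IsDyadicInterval (i k) (I k)) ∧ ∑ k, i k = n ∧ R = Set.univ.pi I

/-- The type of `d`-dimensional dyadic tiles of order `n`. -/
def Tile (d n : ℕ) : Type := {R : Set (Fin d → ℝ) // IsTile d n R}

/-- The set `S` of tiles is a tiling of the unit cube: the union is the cube and the interiors are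
pairwise disjoint. -/
def IsTiling {d n : ℕ} (S : Set (Tile d n)) : Prop :=
  (⋃ R ∈ S, R.1) = Icc (0 : Fin d → ℝ) 1 ∧
    ∀ R ∈ S, ∀ R' ∈ S, R ≠ R' → Disjoint (interior R.1) (interior R'.1)

/-- The law of the availability of one tile: `true` (available) with probability `p`. -/
noncomputable def bern (p : ℝ) : Measure Bool :=
  ENNReal.ofReal p • Measure.dirac true + ENNReal.ofReal (1 - p) • Measure.dirac false

namespace aux

open H27.Dyadic

/-- the tile of an index -/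
def toTile {d n : ℕ} (x : {x // x ∈ tiles d n}) : Tile d n :=
  ⟨tset x.1, fun k => (x.1.1 k : ℕ), fun k => Icc (((x.1.2 k : ℕ) : ℝ) / 2 ^ (x.1.1 k : ℕ))
      ((((x.1.2 k : ℕ) : ℝ) + 1) / 2 ^ (x.1.1 k : ℕ)),
    fun k => ⟨x.1.2 k, (Finset.mem_filter.1 x.2).2.2 k, rfl⟩, (Finset.mem_filter.1 x.2).2.1, rfl⟩

lemma toTile_surj {d n : ℕ} : Function.Surjective (toTile (d := d) (n := n)) := by
  rintro ⟨R, i, I, hI, hs, rfl⟩
  have hI' := hI
  choose a ha hIa using hI'
  have hi : ∀ k, i k < n + 1 := by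
    intro k
    have := Finset.single_le_sum (f := i) (fun _ _ => Nat.zero_le _) (Finset.mem_univ k)
    omega
  have ha2 : ∀ k, a k < 2 ^ n := fun k =>
    (ha k).trans_le (Nat.pow_le_pow_right (by norm_num) (by have := hi k; omega))
  refine ⟨⟨(fun k => ⟨i k, hi k⟩, fun k => ⟨a k, ha2 k⟩), ?_⟩, ?_⟩
  · simp only [tiles, Finset.mem_filter, Finset.mem_univ, true_and]
    exact ⟨hs, ha⟩
  · apply Subtype.ext
    change tset _ = Set.univ.pi I
    unfold tset
    congr 1
    funext k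
    exact (hIa k).symm

lemma toTile_inj {d n : ℕ} : Function.Injective (toTile (d := d) (n := n)) := by
  rintro ⟨x, hx⟩ ⟨y, hy⟩ h
  have h1 : tset x = tset y := congrArg Subtype.val h
  apply Subtype.ext
  have key : ∀ k, ((x.1 k : ℕ) = y.1 k ∧ (x.2 k : ℕ) = y.2 k) := by
    intro k
    have hne : ∀ z : (Fin d → Fin (n + 1)) × (Fin d → Fin (2 ^ n)), ∀ k,
        (((z.2 k : ℕ) : ℝ) / 2 ^ (z.1 k : ℕ)) ≤ ((((z.2 k : ℕ) : ℝ) + 1) / 2 ^ (z.1 k : ℕ)) := by
      intro z k
      gcongr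
      linarith
    have e1 : Icc (((x.2 k : ℕ) : ℝ) / 2 ^ (x.1 k : ℕ)) ((((x.2 k : ℕ) : ℝ) + 1) / 2 ^ (x.1 k : ℕ)) =
        Icc (((y.2 k : ℕ) : ℝ) / 2 ^ (y.1 k : ℕ)) ((((y.2 k : ℕ) : ℝ) + 1) / 2 ^ (y.1 k : ℕ)) := by
      have h2 : (tset x).Nonempty := ⟨fun k => ((x.2 k : ℕ) : ℝ) / 2 ^ (x.1 k : ℕ),
        fun k _ => ⟨le_rfl, hne x k⟩⟩
      have h3 : (tset y).Nonempty := h1 ▸ h2
      have h4 := Set.eval_image_univ_pi (i := k) h2
      have h5 := Set.eval_image_univ_pi (i := k) h3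
      rw [← h4, ← h5]
      exact congrArg _ h1
    obtain ⟨g1, g2⟩ := (Set.Icc_eq_Icc_iff (hne x k)).1 e1
    have p1 : (0 : ℝ) < 2 ^ (x.1 k : ℕ) := by positivity
    have p2 : (0 : ℝ) < 2 ^ (y.1 k : ℕ) := by positivity
    have g3 : (1 : ℝ) / 2 ^ (x.1 k : ℕ) = 1 / 2 ^ (y.1 k : ℕ) := by
      rw [add_div, add_div] at g2
      linarith
    have g4 : (2 : ℝ) ^ (x.1 k : ℕ) = 2 ^ (y.1 k : ℕ) := by
      rw [one_div, one_div] at g3
      exact inv_injective g3
    have g5 : (x.1 k : ℕ) = y.1 k := Nat.pow_right_injective (le_refl 2) (by exact_mod_cast g4)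
    refine ⟨g5, ?_⟩
    rw [g4, div_left_inj' p2.ne'] at g1
    exact_mod_cast g1
  exact Prod.ext (funext fun k => Fin.ext (key k).1) (funext fun k => Fin.ext (key k).2)

end aux

instance (d n : ℕ) : Finite (Tile d n) := Finite.of_surjective _ aux.toTile_surj

noncomputable instance (d n : ℕ) : Fintype (Tile d n) := Fintype.ofFinite _

/-- The probability `T_n^(d)(p)` that some set of available tiles of order `n` is a tiling, when
every tile is available independently with probability `p`. -/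
noncomputable def T (d n : ℕ) (p : ℝ) : ℝ :=
  (Measure.pi fun _ : Tile d n => bern p).real
    {ω | ∃ S : Set (Tile d n), (∀ R ∈ S, ω R = true) ∧ IsTiling S}

/-- The critical probability `p_c(d)`. -/
noncomputable def pc (d : ℕ) : ℝ :=
  sInf {p : ℝ | p ∈ Icc (0 : ℝ) 1 ∧ Tendsto (fun n => T d n p) atTop (𝓝 1)}

namespace aux

open Classical H27.Dyadic

lemma bern_real {p : ℝ} (h0 : 0 ≤ p) (h1 : p ≤ 1) (b : Bool) :
    (bern p).real {b} = if b = true then p else 1 - p := by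
  unfold bern Measure.real
  cases b
  · simp [ENNReal.toReal_ofReal (sub_nonneg.2 h1)]
  · simp [ENNReal.toReal_ofReal h0]

instance (p : ℝ) : IsFiniteMeasure (bern p) := by
  refine ⟨?_⟩
  unfold bern
  simp [ENNReal.add_lt_top]

/-- the outcome given by a set of indices -/
noncomputable def out {d n : ℕ} (A : Finset ((Fin d → Fin (n + 1)) × (Fin d → Fin (2 ^ n))))
    (R : Tile d n) : Bool :=
  decide (∃ x : {x // x ∈ tiles d n}, x.1 ∈ A ∧ toTile x = R)

lemma out_toTile {d n : ℕ} (A : Finset ((Fin d → Fin (n + 1)) × (Fin d → Fin (2 ^ n))))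
    (x : {x // x ∈ tiles d n}) : out A (toTile x) = true ↔ x.1 ∈ A := by
  unfold out
  rw [decide_eq_true_iff]
  constructor
  · rintro ⟨y, hy, e⟩
    rwa [← toTile_inj e]
  · exact fun h => ⟨x, h, rfl⟩

/-- the event -/
def Ev (d n : ℕ) : Set (Tile d n → Bool) :=
  {ω | ∃ S : Set (Tile d n), (∀ R ∈ S, ω R = true) ∧ IsTiling S}

lemma ev_iff {d n : ℕ} {A : Finset ((Fin d → Fin (n + 1)) × (Fin d → Fin (2 ^ n)))}
    (hA : A ⊆ tiles d n) : out A ∈ Ev d n ↔ ∃ S ⊆ A, H27.Dyadic.IsTiling S := by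
  constructor
  · rintro ⟨S, hS, h1, h2⟩
    have hmem : ∀ R ∈ S, ∃ x : {x // x ∈ tiles d n}, x.1 ∈ A ∧ toTile x = R := by
      intro R hR
      have h3 := hS R hR
      unfold out at h3
      rwa [decide_eq_true_iff] at h3
    refine ⟨A.filter fun x => ∃ h : x ∈ tiles d n, toTile ⟨x, h⟩ ∈ S, Finset.filter_subset _ _,
      ?_, ?_⟩
    · rw [← h1]
      ext z
      simp only [Set.mem_iUnion, exists_prop]
      constructor
      · rintro ⟨x, hx, hz⟩
        obtain ⟨-, hx1, hx2⟩ := Finset.mem_filter.1 hx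
        exact ⟨_, hx2, hz⟩
      · rintro ⟨R, hR, hz⟩
        obtain ⟨x, hx, rfl⟩ := hmem R hR
        exact ⟨x.1, Finset.mem_filter.2 ⟨hx, x.2, hR⟩, hz⟩
    · intro x hx y hy hxy
      obtain ⟨-, hx1, hx2⟩ := Finset.mem_filter.1 hx
      obtain ⟨-, hy1, hy2⟩ := Finset.mem_filter.1 hy
      refine h2 _ hx2 _ hy2 ?_
      intro e
      exact hxy (congrArg Subtype.val (toTile_inj e))
  · rintro ⟨S, hSA, h1, h2⟩
    refine ⟨{R | ∃ x : {x // x ∈ tiles d n}, x.1 ∈ S ∧ toTile x = R}, ?_, ?_, ?_⟩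
    · rintro R ⟨x, hx, rfl⟩
      exact (out_toTile A x).2 (hSA hx)
    · rw [← h1]
      ext z
      simp only [Set.mem_iUnion, exists_prop]
      constructor
      · rintro ⟨R, ⟨x, hx, rfl⟩, hz⟩
        exact ⟨x.1, hx, hz⟩
      · rintro ⟨x, hx, hz⟩
        exact ⟨_, ⟨⟨x, hA (hSA hx)⟩, hx, rfl⟩, hz⟩
    · rintro R ⟨x, hx, rfl⟩ R' ⟨y, hy, rfl⟩ hne
      refine h2 _ hx _ hy ?_
      intro e
      exact hne (by rw [Subtype.ext e])

lemma T_eq (d n : ℕ) {p : ℝ} (h0 : 0 ≤ p) (h1 : p ≤ 1) : T d n p = prb d n p := by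
  have e1 : T d n p = ∑ ω ∈ (Finset.univ.filter fun ω => ω ∈ Ev d n),
      ∏ R : Tile d n, (if ω R = true then p else 1 - p) := by
    have e2 : (((Finset.univ.filter fun ω => ω ∈ Ev d n) : Finset (Tile d n → Bool)) :
        Set (Tile d n → Bool)) = Ev d n := by
      ext ω
      simp
    unfold T
    change Measure.real _ (Ev d n) = _
    conv_lhs => rw [← e2]
    rw [← sum_measureReal_singleton]
    refine Finset.sum_congr rfl fun ω _ => ?_
    unfold Measure.real
    rw [Measure.pi_singleton, ENNReal.toReal_prod]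
    refine Finset.prod_congr rfl fun R _ => ?_
    exact bern_real h0 h1 (ω R)
  rw [e1]
  unfold prb
  rw [← Finset.sum_filter]
  symm
  refine Finset.sum_nbij' (fun A => out A)
    (fun ω => (tiles d n).filter fun x => ∃ h : x ∈ tiles d n, ω (toTile ⟨x, h⟩) = true)
    ?_ ?_ ?_ ?_ ?_
  · intro A hA
    rw [Finset.mem_filter, Finset.mem_powerset] at hA
    rw [Finset.mem_filter]
    exact ⟨Finset.mem_univ _, (ev_iff hA.1).2 hA.2⟩
  · intro ω hω
    rw [Finset.mem_filter] at hω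
    rw [Finset.mem_filter, Finset.mem_powerset]
    refine ⟨Finset.filter_subset _ _, ?_⟩
    rw [← ev_iff (Finset.filter_subset _ _)]
    have : out ((tiles d n).filter fun x => ∃ h : x ∈ tiles d n, ω (toTile ⟨x, h⟩) = true) = ω := by
      funext R
      obtain ⟨x, rfl⟩ := toTile_surj R
      rw [Bool.eq_iff_iff, out_toTile, Finset.mem_filter]
      exact ⟨fun h => h.2.2, fun h => ⟨x.2, x.2, h⟩⟩
    rw [this]
    exact hω.2
  · intro A hA
    rw [Finset.mem_filter, Finset.mem_powerset] at hA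
    ext x
    rw [Finset.mem_filter]
    constructor
    · rintro ⟨-, hx, h⟩
      exact (out_toTile A ⟨x, hx⟩).1 h
    · intro hx
      exact ⟨hA.1 hx, hA.1 hx, (out_toTile A ⟨x, hA.1 hx⟩).2 hx⟩
  · intro ω hω
    funext R
    obtain ⟨x, rfl⟩ := toTile_surj R
    rw [Bool.eq_iff_iff, out_toTile, Finset.mem_filter]
    exact ⟨fun h => h.2.2, fun h => ⟨x.2, x.2, h⟩⟩
  · intro A hA
    rw [Finset.mem_filter, Finset.mem_powerset] at hA
    let e : {x // x ∈ tiles d n} ≃ Tile d n := Equiv.ofBijective _ ⟨toTile_inj, toTile_surj⟩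
    rw [← Equiv.prod_comp e]
    have e3 : ∀ x : {x // x ∈ tiles d n}, (if out A (e x) = true then p else 1 - p) =
        (if x.1 ∈ A then p else 1 - p) := by
      intro x
      exact if_congr (out_toTile A x) rfl rfl
    rw [Finset.prod_congr rfl fun x _ => e3 x,
      Finset.prod_coe_sort (tiles d n) (fun x => if x ∈ A then p else 1 - p),
      Finset.prod_ite, Finset.prod_const, Finset.prod_const]
    have e4 : (tiles d n).filter (fun x => x ∈ A) = A := by
      rw [Finset.filter_mem_eq_inter]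
      exact Finset.inter_eq_right.2 hA.1
    have e5 : ((tiles d n).filter (fun x => x ∉ A)).card = (tiles d n).card - A.card := by
      have := Finset.card_filter_add_card_filter_not (s := tiles d n) (fun x => x ∈ A)
      rw [e4] at this
      omega
    rw [e4, e5]

end aux

/-- In every dimension `d ≥ 1` the critical probability is at least `4 / 2^(2^d)`; in particular it
is positive for every `d ≥ 4`. -/
theorem result (d : ℕ) (hd : 1 ≤ d) : (4 : ℝ) / 2 ^ 2 ^ d ≤ pc d := by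
  obtain ⟨m, rfl⟩ : ∃ m, d = m + 1 := ⟨d - 1, by omega⟩
  have hl : (H27.Dyadic.lam m : ℝ) = 4 / 2 ^ 2 ^ (m + 1) := by
    rw [H27.Dyadic.lam_eq, pow_succ 2 m, mul_comm (2 ^ m) 2, pow_mul]
    norm_num
  have hlpos : (0:ℝ) < (H27.Dyadic.lam m : ℝ) := by exact_mod_cast H27.Dyadic.lam_pos m
  rw [← hl]
  refine le_csInf ?_ ?_
  · refine ⟨1, ⟨zero_le_one, le_rfl⟩, ?_⟩
    have h1 : (fun n : ℕ => T (m+1) n 1) = fun _ => 1 := funext fun n => by
      rw [aux.T_eq _ _ zero_le_one le_rfl, H27.Dyadic.prb_one]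
    rw [h1]
    exact tendsto_const_nhds
  · rintro p ⟨⟨hp0, hp1⟩, hlim⟩
    by_contra hlt
    push Not at hlt
    have h2 : ∀ n, T (m+1) n p ≤ p / H27.Dyadic.lam m := fun n => by
      rw [aux.T_eq _ _ hp0 hp1]
      exact H27.Dyadic.prb_le m n p hp0 hlt.le
    have h3 := le_of_tendsto' hlim h2
    rw [le_div_iff₀ hlpos, one_mul] at h3
    linarith

end Pool.Agent.Results.MP_27a786_pr.CriticalProbabilityBound
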